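import Pool.Agent.Helper61.CAR.GoalsQ

/-!
# Packet CAR-LAD: the ladder lemma
-/

set_option autoImplicit false

open scoped ComplexOrder ZeroAtInfty InnerProductSpace ComplexConjugate Topology
open Filter

namespace Pool.Agent.Helper46.CAR

open Pool.Agent.Helper61.CAR Pool.Agent.Helper34.CAR

section tools

variable {D : Type} [NonUnitalCStarAlgebra D] {H : Type} [NormedAddCommGroup H]
  [InnerProductSpace ℂ H] [CompleteSpace H]

lemma norm_pi_le (π : D →⋆ₙₐ[ℂ] (H →L[ℂ] H)) (d : D) : ‖π d‖ ≤ ‖d‖ :=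
  NonUnitalStarAlgHom.norm_apply_le π d

lemma norm_val_le (f : C₀(ℝ, D)) (t : ℝ) : ‖f t‖ ≤ ‖f‖ := by
  rw [← ZeroAtInftyContinuousMap.norm_toBCF_eq_norm]
  exact f.toBCF.norm_coe_le_norm t

lemma norm_w_le {m : ℕ} (w : Fin m → H) (hw : Ctr w) (i : Fin m) : ‖w i‖ ≤ 1 := by
  classical
  have h := hw (Pi.single i 1)
  have h1 : ∑ j, (Pi.single i (1 : ℂ) : Fin m → ℂ) j • w j = w i := by
    rw [Finset.sum_eq_single i]
    · simp
    · intro j _ hj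
      rw [Pi.single_eq_of_ne hj, zero_smul]
    · intro h; exact absurd (Finset.mem_univ i) h
  have h2 : ∑ j, ‖(Pi.single i (1 : ℂ) : Fin m → ℂ) j‖ ^ 2 = 1 := by
    rw [Finset.sum_eq_single i]
    · simp
    · intro j _ hj
      rw [Pi.single_eq_of_ne hj]
      simp
    · intro h; exact absurd (Finset.mem_univ i) h
  rw [h1, h2] at h
  nlinarith [norm_nonneg (w i)]

/-- The window sum. -/
noncomputable def win (π : D →⋆ₙₐ[ℂ] (H →L[ℂ] H)) {n : ℕ} (t : Fin n → ℝ)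
    (C : Fin n → (H →L[ℂ] H)) : C₀(ℝ, D) →ₗ[ℂ] (H →L[ℂ] H) where
  toFun f := ∑ i, C i * π (f (t i)) * C i
  map_add' f g := by
    rw [← Finset.sum_add_distrib]
    refine Finset.sum_congr rfl fun i _ => ?_
    rw [ZeroAtInftyContinuousMap.add_apply, map_add, mul_add, add_mul]
  map_smul' c f := by
    rw [RingHom.id_apply, Finset.smul_sum]
    refine Finset.sum_congr rfl fun i _ => ?_
    rw [ZeroAtInftyContinuousMap.smul_apply, map_smul, mul_smul_comm, smul_mul_assoc]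

lemma win_apply (π : D →⋆ₙₐ[ℂ] (H →L[ℂ] H)) {n : ℕ} (t : Fin n → ℝ)
    (C : Fin n → (H →L[ℂ] H)) (f : C₀(ℝ, D)) :
    win π t C f = ∑ i, C i * π (f (t i)) * C i := rfl

lemma win_star (π : D →⋆ₙₐ[ℂ] (H →L[ℂ] H)) {n : ℕ} (t : Fin n → ℝ)
    (C : Fin n → (H →L[ℂ] H)) (hC : ∀ i, star (C i) = C i) (f : C₀(ℝ, D)) :
    win π t C (star f) = star (win π t C f) := by
  rw [win_apply, win_apply, star_sum]
  refine Finset.sum_congr rfl fun i _ => ?_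
  rw [star_mul, star_mul, hC, ZeroAtInftyContinuousMap.star_apply, map_star, mul_assoc]

end tools

theorem lad_special (hLADC : S_LADC) (hCMP : S_CMP) (hWB : S_WB) (D : Type)
    [NonUnitalCStarAlgebra D] (H : Type) [NormedAddCommGroup H]
    [InnerProductSpace ℂ H] [CompleteSpace H] (π : D →⋆ₙₐ[ℂ] (H →L[ℂ] H)) (m : ℕ)
    (w : Fin m → H) (hw : Ctr w) (s : ℝ) (F : Finset C₀(ℝ, D)) (ε : ℝ) (hε : 0 < ε)
    (hF : ∀ f ∈ F, ‖f‖ ≤ 1) :
    ∃ (J : Type) (_ : Fintype J) (_ : DecidableEq J) (Φ : C₀(ℝ, D) →ₗ[ℂ] CStarMatrix J J ℂ)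
      (u : J → Fin m → ℂ), (∀ f, ‖Φ f‖ ≤ ‖f‖) ∧ (∀ f, Φ (star f) = star (Φ f)) ∧
      (∀ z : Fin m → ℂ, ∑ p, ‖∑ i, u p i * z i‖ ^ 2 ≤ ∑ i, ‖z i‖ ^ 2) ∧
      (∀ f ∈ F, ∀ g ∈ F, ‖Φ (f * g) - Φ f * Φ g‖ < ε) ∧
      ∀ f ∈ F, ∀ i j,
        ‖(∑ p, ∑ q, conj (u p i) * Φ f p q * u q j) - ⟪w i, π (f s) (w j)⟫_ℂ‖ < ε := by
  obtain ⟨n, t, C, K, wt, hK, hwK, hCs, hC2, hCK, hmul, hCw, hwt, hfs⟩ :=
    hLADC D H π m w s F (ε / 2) (half_pos hε) hF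
  obtain ⟨J, iF, iD, Θ, co, hΘn, hΘs, hΘm, hco, hΘi⟩ := hCMP H K hK
  have hwinK : ∀ f x, win π t C f x ∈ K := by
    intro f x
    rw [win_apply, _root_.sum_apply]
    refine K.sum_mem fun i _ => ?_
    rw [mul_assoc]
    exact hCK i _
  refine ⟨J, iF, iD, Θ ∘ₗ win π t C, fun p l => co (w l) p, ?_, ?_, ?_, ?_, ?_⟩
  · intro f
    refine (hΘn _).trans ?_
    exact hWB H n C (fun i => π (f (t i))) ‖f‖ (norm_nonneg _) hCs hC2
      fun i => (norm_pi_le π _).trans (norm_val_le f _)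
  · intro f
    rw [LinearMap.comp_apply, LinearMap.comp_apply, win_star π t C hCs, hΘs]
  · intro z
    have h1 : ∀ p, ∑ i, co (w i) p * z i = co (∑ i, z i • w i) p := by
      intro p
      rw [map_sum, Finset.sum_apply]
      refine Finset.sum_congr rfl fun i _ => ?_
      rw [map_smul, Pi.smul_apply, smul_eq_mul, mul_comm]
    calc ∑ p, ‖∑ i, co (w i) p * z i‖ ^ 2 = ∑ p, ‖co (∑ i, z i • w i) p‖ ^ 2 :=
          Finset.sum_congr rfl fun p _ => by rw [h1]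
      _ ≤ ‖∑ i, z i • w i‖ ^ 2 := hco _
      _ ≤ _ := hw z
  · intro f hf g hg
    have h1 : (Θ ∘ₗ win π t C) (f * g) - (Θ ∘ₗ win π t C) f * (Θ ∘ₗ win π t C) g =
        Θ (win π t C (f * g) - win π t C f * win π t C g) := by
      rw [LinearMap.comp_apply, LinearMap.comp_apply, LinearMap.comp_apply, map_sub,
        hΘm _ _ (hwinK g)]
    rw [h1]
    refine (hΘn _).trans_lt ?_
    exact (hmul f hf g hg).trans (by linarith)
  · intro f hf i j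
    have h1 : (∑ p, ∑ q, conj (co (w i) p) * (Θ ∘ₗ win π t C) f p q * co (w j) q) =
        ⟪w i, win π t C f (w j)⟫_ℂ := (hΘi _ _ (hwK i) _ (hwK j)).symm
    have h2 : ⟪w i, win π t C f (w j)⟫_ℂ =
        ∑ l, ((wt l ^ 2 : ℝ) : ℂ) * ⟪w i, π (f (t l)) (w j)⟫_ℂ := by
      rw [win_apply, _root_.sum_apply, inner_sum]
      refine Finset.sum_congr rfl fun l _ => ?_
      have h3 : (C l * π (f (t l)) * C l) (w j) = C l (π (f (t l)) (C l (w j))) := rfl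
      have h4 : ∀ x y : H, ⟪x, C l y⟫_ℂ = ⟪C l x, y⟫_ℂ := by
        intro x y
        conv_lhs => rw [← hCs l]
        rw [ContinuousLinearMap.star_eq_adjoint, ContinuousLinearMap.adjoint_inner_right]
      rw [h3, h4, hCw, hCw, map_smul, inner_smul_left, inner_smul_right, Complex.conj_ofReal]
      push_cast
      ring
    have h5 : ⟪w i, π (f s) (w j)⟫_ℂ = ∑ l, ((wt l ^ 2 : ℝ) : ℂ) * ⟪w i, π (f s) (w j)⟫_ℂ := by
      rw [← Finset.sum_mul, ← Complex.ofReal_sum, hwt, Complex.ofReal_one, one_mul]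
    show ‖(∑ p, ∑ q, conj (co (w i) p) * (Θ ∘ₗ win π t C) f p q * co (w j) q) -
      ⟪w i, π (f s) (w j)⟫_ℂ‖ < ε
    rw [h1, h2, h5, ← Finset.sum_sub_distrib]
    have hwi := norm_w_le w hw i
    have hwj := norm_w_le w hw j
    have h6 : ∀ l, ‖((wt l ^ 2 : ℝ) : ℂ) * ⟪w i, π (f (t l)) (w j)⟫_ℂ -
        ((wt l ^ 2 : ℝ) : ℂ) * ⟪w i, π (f s) (w j)⟫_ℂ‖ ≤ wt l ^ 2 * (ε / 2) := by
      intro l
      by_cases hl : wt l = 0
      · rw [hl]; simp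
      · have h7 : ((wt l ^ 2 : ℝ) : ℂ) * ⟪w i, π (f (t l)) (w j)⟫_ℂ -
            ((wt l ^ 2 : ℝ) : ℂ) * ⟪w i, π (f s) (w j)⟫_ℂ =
            ((wt l ^ 2 : ℝ) : ℂ) * ⟪w i, π (f (t l) - f s) (w j)⟫_ℂ := by
          rw [map_sub, _root_.sub_apply, inner_sub_right, mul_sub]
        rw [h7, norm_mul, Complex.norm_real, Real.norm_of_nonneg (sq_nonneg _)]
        refine mul_le_mul_of_nonneg_left ?_ (sq_nonneg _)
        have h8 : ‖π (f (t l) - f s) (w j)‖ ≤ ε / 2 := by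
          calc ‖π (f (t l) - f s) (w j)‖ ≤ ‖π (f (t l) - f s)‖ * ‖w j‖ :=
                ContinuousLinearMap.le_opNorm _ _
            _ ≤ ‖π (f (t l) - f s)‖ * 1 := mul_le_mul_of_nonneg_left hwj (norm_nonneg _)
            _ ≤ ‖f (t l) - f s‖ := by rw [mul_one]; exact norm_pi_le π _
            _ ≤ ε / 2 := (hfs f hf l hl).le
        calc ‖⟪w i, π (f (t l) - f s) (w j)⟫_ℂ‖ ≤ ‖w i‖ * ‖π (f (t l) - f s) (w j)‖ :=
              norm_inner_le_norm _ _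
          _ ≤ 1 * (ε / 2) := mul_le_mul hwi h8 (norm_nonneg _) zero_le_one
          _ = ε / 2 := one_mul _
    calc ‖∑ l, (((wt l ^ 2 : ℝ) : ℂ) * ⟪w i, π (f (t l)) (w j)⟫_ℂ -
        ((wt l ^ 2 : ℝ) : ℂ) * ⟪w i, π (f s) (w j)⟫_ℂ)‖
        ≤ ∑ l, ‖((wt l ^ 2 : ℝ) : ℂ) * ⟪w i, π (f (t l)) (w j)⟫_ℂ -
        ((wt l ^ 2 : ℝ) : ℂ) * ⟪w i, π (f s) (w j)⟫_ℂ‖ := norm_sum_le _ _
      _ ≤ ∑ l, wt l ^ 2 * (ε / 2) := Finset.sum_le_sum fun l _ => h6 l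
      _ = ε / 2 := by rw [← Finset.sum_mul, hwt, one_mul]
      _ < ε := by linarith

theorem lad (hLADC : S_LADC) (hCMP : S_CMP) (hWB : S_WB) : S_LAD := by
  intro D _ H _ _ _ π m w hw s F ε hε
  classical
  set T : ℝ := 1 + ∑ f ∈ F, ‖f‖ with hT
  have hT1 : 1 ≤ T := by
    have : 0 ≤ ∑ f ∈ F, ‖f‖ := Finset.sum_nonneg fun f _ => norm_nonneg f
    linarith
  have hT0 : 0 < T := by linarith
  have hTf : ∀ f ∈ F, ‖f‖ ≤ T := by
    intro f hf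
    have : ‖f‖ ≤ ∑ f ∈ F, ‖f‖ := Finset.single_le_sum (fun g _ => norm_nonneg g) hf
    linarith
  have hTc : ((T : ℝ) : ℂ) ≠ 0 := by exact_mod_cast hT0.ne'
  let sc : C₀(ℝ, D) → C₀(ℝ, D) := fun f => ((T : ℝ) : ℂ)⁻¹ • f
  have hsc : ∀ f ∈ F.image sc, ‖f‖ ≤ 1 := by
    intro f hf
    obtain ⟨g, hg, rfl⟩ := Finset.mem_image.1 hf
    show ‖((T : ℝ) : ℂ)⁻¹ • g‖ ≤ 1
    rw [norm_smul, norm_inv, Complex.norm_real, Real.norm_of_nonneg hT0.le]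
    rw [inv_mul_le_iff₀ hT0, mul_one]
    exact hTf g hg
  have hε' : 0 < ε / (T + 1) ^ 2 := by positivity
  obtain ⟨J, iF, iD, Φ, u, h1, h2, h3, h4, h5⟩ :=
    lad_special hLADC hCMP hWB D H π m w hw s (F.image sc) (ε / (T + 1) ^ 2) hε' hsc
  refine ⟨J, iF, iD, Φ, u, h1, h2, h3, ?_, ?_⟩
  · intro f hf g hg
    have h6 := h4 (sc f) (Finset.mem_image_of_mem _ hf) (sc g) (Finset.mem_image_of_mem _ hg)
    have h7 : Φ (sc f * sc g) - Φ (sc f) * Φ (sc g) =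
        (((T : ℝ) : ℂ)⁻¹ * ((T : ℝ) : ℂ)⁻¹) • (Φ (f * g) - Φ f * Φ g) := by
      have e1 : sc f * sc g = (((T : ℝ) : ℂ)⁻¹ * ((T : ℝ) : ℂ)⁻¹) • (f * g) := by
        show (((T : ℝ) : ℂ)⁻¹ • f) * (((T : ℝ) : ℂ)⁻¹ • g) = _
        rw [smul_mul_smul_comm]
      have e2 : ∀ g, Φ (sc g) = ((T : ℝ) : ℂ)⁻¹ • Φ g := fun g => map_smul Φ _ g
      rw [e1, e2, e2, map_smul, smul_mul_smul_comm, smul_sub]
    rw [h7, norm_smul, norm_mul, norm_inv, Complex.norm_real, Real.norm_of_nonneg hT0.le] at h6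
    have h8 : ‖Φ (f * g) - Φ f * Φ g‖ < T * T * (ε / (T + 1) ^ 2) := by
      have h9 : ‖Φ (f * g) - Φ f * Φ g‖ =
          T * T * (T⁻¹ * T⁻¹ * ‖Φ (f * g) - Φ f * Φ g‖) := by
        field_simp
      rw [h9]
      exact mul_lt_mul_of_pos_left h6 (by positivity)
    refine h8.trans_le ?_
    rw [mul_div_assoc', div_le_iff₀ (by positivity)]
    nlinarith
  · intro f hf i j
    have h6 := h5 (sc f) (Finset.mem_image_of_mem _ hf) i j
    have e1 : ∀ p q, Φ (sc f) p q = ((T : ℝ) : ℂ)⁻¹ * Φ f p q := by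
      intro p q
      have : Φ (sc f) = ((T : ℝ) : ℂ)⁻¹ • Φ f := map_smul Φ _ f
      rw [this, CStarMatrix.smul_apply, smul_eq_mul]
    have e2 : π (sc f s) (w j) = ((T : ℝ) : ℂ)⁻¹ • π (f s) (w j) := by
      have : sc f s = ((T : ℝ) : ℂ)⁻¹ • f s := rfl
      rw [this, map_smul]
      rfl
    have h7 : (∑ p, ∑ q, conj (u p i) * Φ (sc f) p q * u q j) - ⟪w i, π (sc f s) (w j)⟫_ℂ =
        ((T : ℝ) : ℂ)⁻¹ * ((∑ p, ∑ q, conj (u p i) * Φ f p q * u q j) -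
          ⟪w i, π (f s) (w j)⟫_ℂ) := by
      rw [e2, inner_smul_right, mul_sub, Finset.mul_sum]
      congr 1
      refine Finset.sum_congr rfl fun p _ => ?_
      rw [Finset.mul_sum]
      refine Finset.sum_congr rfl fun q _ => ?_
      rw [e1]
      ring
    rw [h7, norm_mul, norm_inv, Complex.norm_real, Real.norm_of_nonneg hT0.le] at h6
    have h8 : ‖(∑ p, ∑ q, conj (u p i) * Φ f p q * u q j) - ⟪w i, π (f s) (w j)⟫_ℂ‖ <
        T * (ε / (T + 1) ^ 2) := by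
      rwa [inv_mul_lt_iff₀ hT0] at h6
    refine h8.trans_le ?_
    rw [mul_div_assoc', div_le_iff₀ (by positivity)]
    have h9 : T ≤ (T + 1) ^ 2 := by nlinarith
    have h10 := mul_le_mul_of_nonneg_left h9 hε.le
    linarith

end Pool.Agent.Helper46.CAR
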